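import Pool.Agent.Q61.FG.Cov
/-!
# MP_e66f84_ag: all cyclic covers of all curves, for 100% of the norms

Let `k` be any field finitely generated over `ℚ`, that is, the fraction field of a domain `R` of
characteristic zero that is finitely generated as a ring.  Let `D ≥ 2` and let `d` be a multiple of
`gcd(2, D) D`.  We show that for 100% of the vectors `(a, c₀, …, c_d) ∈ R^(d+2)` the polynomial
`f = c₀ + c₁ T + … + c_d T^d` is irreducible, and that with `E = k(θ)`, `f(θ) = 0`, the section conjecture
holds for ALL cyclic covers

  `a yⁿ = N_{E/k}(h)`,   `D | n`,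

of ALL smooth curves `Y` over `k` and all functions `h ∈ E ⊗ k(Y)` such that the divisors of the quotients of
the conjugates of `h` are divisible by `n` on the cover, for instance if the divisors of the conjugates of
`h` are disjoint: there are neither sections of the fundamental group nor rational points.  The same
holds, with the same exceptional set, over all finite extensions `L/k` whose degree is not divisible by `D`,
for all curves and functions over `L`.  So there is one exceptional set of density zero for all the covers of
all curves together.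

The exceptional set has density zero in a strong sense: for every `ε > 0` there is an ideal `I` of `R` of
finite index such that the exceptional vectors lie in at most `ε #(R/I)^(d+2)` residue classes modulo `I`.

For `Y` the line and `h = x - θ` one gets the superelliptic curves `a yⁿ = f(x)` of the starting file
`SuperellipticFamilies`.

The fundamental group is described through valuations.  Let `U` be a smooth geometrically connected
curve over `k` with function field `F`, let `Ω` be an algebraic closure of `F`, and let `F_U` be the
maximal extension of `F` inside `Ω` which is unramified over the closed points of `U`, that is, over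
their local rings, which are valuation rings of `F`.  Then `π₁(U) = Gal(F_U/F)`, and the map
`π₁(U) → G_k` is the restriction of automorphisms to the algebraic closure of `k` in `Ω`.

Proof.  As in `SuperellipticFamilies` one finds a number field `L₀` and a homomorphism `P : R → L₀` such that
for almost all primes `v` of `L₀` there is an embedding `ψ : k → (L₀)_v` with `ψ(r) ≡ P(r)` modulo `v²` for
all `r ∈ R`; it induces a discrete valuation on `k` whose residue field is contained in that of `v`.  For
almost all vectors there is a `v` such that `P(a)` is a uniformiser at `v` and the reduction of `f` is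
irreducible of degree `d`.  Then `E/k` is unramified and inert at the valuation of `k`, whose value at `a`
is `±1`, and the local theorem for functions whose norm is `a yⁿ` (file `CyclicCoversAnyField`, based on
`Pool.Agent.TH377.NC`) can be applied to all curves and functions at once.
-/

set_option autoImplicit false
set_option maxHeartbeats 400000

namespace Pool.Agent.Results.MP_e66f84_ag.AllCoversAlmostAllNorms

open Polynomial

universe u v w x y

section definitions

variable (k : Type u) (F : Type v) (Ω : Type w) [Field k] [Field F] [Field Ω] [Algebra k F]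
  [Algebra F Ω] [Algebra k Ω]

/-- The inertia group of the valuation ring `W` of `Ω`, as a subgroup of `Gal(Ω/F)`: the
automorphisms of `Ω` over `F` that map `W` onto itself and act as the identity on its residue
field. -/
noncomputable def inertia (W : ValuationSubring Ω) : Subgroup (Ω ≃ₐ[F] Ω) :=
  (W.inertiaSubgroup F).map (W.decompositionSubgroup F).subtype

/-- `F_U`, for a set `U` of valuation rings of `F`: the elements of `Ω` fixed by the inertia groups
of all valuation rings `W` of `Ω` with `W ∩ F ∈ U`.  If `Ω` is an algebraic closure of a field `F`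
of characteristic zero, this is the maximal extension of `F` in `Ω` unramified over `U`. -/
noncomputable def unramified (U : Set (ValuationSubring F)) : IntermediateField F Ω :=
  ⨅ W : {W : ValuationSubring Ω // W.comap (algebraMap F Ω) ∈ U},
    IntermediateField.fixedField (inertia F Ω W.1)

/-- The map `τ : M → M` acts as `σ : K → K` on the elements that the fields `K` and `M` have in
common when they are regarded as subfields of `Ω` through `i` and `j`. -/
def ActsAs {K M Ω : Type*} [Field K] [Field M] [Field Ω] (i : K →+* Ω) (j : M →+* Ω) (σ : K → K)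
    (τ : M → M) : Prop :=
  ∀ c z, j z = i c → j (τ z) = i (σ c)

/-- Let `k ⊆ K ⊆ Ω` and `F ⊆ M ⊆ Ω` be fields.  A splitting of `Gal(M/F) → Gal(K/k)`: a continuous
homomorphism `s` from `Gal(K/k)` to `Gal(M/F)` such that `s(σ)` acts as `σ` on the elements of
`K ∩ M`. -/
structure Splitting (K M : Type*) [Field K] [Field M] [Algebra k K] [Algebra F M] [Algebra K Ω]
    [Algebra M Ω] where
  /-- the homomorphism `Gal(K/k) → Gal(M/F)` -/
  toHom : (K ≃ₐ[k] K) →* (M ≃ₐ[F] M)
  cont : Continuous toHom
  compat : ∀ σ : K ≃ₐ[k] K, ActsAs (algebraMap K Ω) (algebraMap M Ω) σ (toHom σ)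

/-- The sections of `π₁(U) = Gal(F_U/F) → G_k`: the continuous homomorphisms `s` from
`G_k = Gal(k̄/k)` to `Gal(F_U/F)`, where `k̄` is the algebraic closure of `k` in `Ω`, such that
`s(σ)` acts as `σ` on the elements of `k̄`. -/
def GaloisSection (U : Set (ValuationSubring F)) : Type w :=
  Splitting k F Ω (algebraicClosure k Ω) (unramified F Ω U)

end definitions

section functions

variable {K : Type u} {E : Type x} {F : Type v} {Ω : Type w} [Field K] [Field E] [Algebra K E]
  [FiniteDimensional K E] [Field F] [Field Ω] [Algebra F Ω] [Algebra K Ω]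

/-- The conjugate `σ(h) = ∑ σ(A_j) x_j` of the function `h = ∑ A_j x_j`, `A_j ∈ E`, `x_j ∈ F`, for an
embedding `σ` of `E` into the algebraically closed field `Ω ⊇ F`. -/
noncomputable def conjugate {r : ℕ} (A : Fin r → E) (x : Fin r → F) (σ : E →ₐ[K] Ω) : Ω :=
  ∑ j, σ (A j) * algebraMap F Ω (x j)

/-- The element `z` is a unit of the valuation ring `W`: it has neither a zero nor a pole at the point
`W`. -/
def UnitAt (W : ValuationSubring Ω) (z : Ω) : Prop := z ≠ 0 ∧ z ∈ W ∧ z⁻¹ ∈ W

/-- The order of `z` is divisible by `n` at all points over the set `U` of valuation rings of `F`: it is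
the order of the `n`-th power of an element of `F`. -/
def OrderDivisible (U : Set (ValuationSubring F)) (n : ℕ) (z : Ω) : Prop :=
  ∀ W : ValuationSubring Ω, W.comap (algebraMap F Ω) ∈ U →
    ∃ t : F, t ≠ 0 ∧ UnitAt W (z / algebraMap F Ω t ^ n)

/-- The function `h = ∑ A_j x_j` is not zero and its norm, the product of its conjugates, is `a yⁿ`. -/
def HasNorm (Ω : Type w) [Field Ω] [Algebra F Ω] [Algebra K Ω] (n : ℕ) (a : K) {r : ℕ}
    (A : Fin r → E) (x : Fin r → F) (y : F) : Prop :=
  (∀ σ : E →ₐ[K] Ω, conjugate A x σ ≠ 0) ∧
    ∏ σ : E →ₐ[K] Ω, conjugate A x σ = algebraMap K Ω a * algebraMap F Ω y ^ n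

end functions

/-- The divisors of the conjugates of `h = ∑ A_j x_j` are disjoint on `U`: there is no point over `U` at which
two different conjugates of `h` have zeros or poles. -/
def DisjointDivisors (K : Type u) {E : Type x} {F : Type v} (Ω : Type w) [Field K] [Field E]
    [Algebra K E] [Field F] [Field Ω] [Algebra F Ω] [Algebra K Ω] (U : Set (ValuationSubring F))
    {r : ℕ} (A : Fin r → E) (x : Fin r → F) : Prop :=
  ∀ W : ValuationSubring Ω, W.comap (algebraMap F Ω) ∈ U → ∀ σ τ : E →ₐ[K] Ω, σ ≠ τ →
    UnitAt W (conjugate A x σ) ∨ UnitAt W (conjugate A x τ)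

/-- The assertion for the extension `E/K` and the numbers `D` and `a`: for all finite extensions `L` of
`K` such that `D` does not divide `[L : K]`, all `n ≥ 1` divisible by `D`, all fields `F` over `L`
(function fields of curves or varieties `X` over `L`) with algebraic closure `Ω`, and all sets `U` of
valuation rings of `F` over `L` (points of `X`): if there are functions `h = ∑ A_j x_j` and `y` with
`N(h) = a yⁿ` such that the orders of all quotients `σ(h)/τ(h)` at the points of `U` are divisible by `n`,
then `π₁(U) → G_L` has no section. -/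
def NoSections {K : Type} (E : Type x) [Field K] [Field E] [Algebra K E] [FiniteDimensional K E]
    (D : ℕ) (a : K) : Prop :=
  ∀ (L : Type) [Field L] [Algebra K L] [FiniteDimensional K L],
    ¬ D ∣ Module.finrank K L → ∀ n : ℕ, 0 < n → D ∣ n →
      ∀ (F : Type v) (Ω : Type w) [Field F] [Field Ω] [Algebra L F] [Algebra F Ω] [Algebra L Ω]
        [Algebra K Ω] [IsScalarTower L F Ω] [IsScalarTower K L Ω] [IsAlgClosure F Ω]
        (U : Set (ValuationSubring F)), (∀ O ∈ U, ∀ c : L, algebraMap L F c ∈ O) →
        ∀ (r : ℕ) (A : Fin r → E) (x : Fin r → F) (y : F), HasNorm Ω n a A x y →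
          (∀ σ τ : E →ₐ[K] Ω, OrderDivisible U n (conjugate A x σ / conjugate A x τ)) →
            IsEmpty (GaloisSection L F Ω U)

/-- The polynomial `c₁ + c₂ T + … + c_{d+1} T^d` over `k`, for a vector `(c₀, …, c_{d+1})` of elements
of `R`. -/
noncomputable def poly {R : Type} [CommRing R] (k : Type) [Field k] [Algebra R k] {d : ℕ}
    (c : Fin (d + 2) → R) : k[X] :=
  ∑ i : Fin (d + 1), C (algebraMap R k (c i.succ)) * X ^ (i : ℕ)

/-- The vectors `c = (a, c₀, …, c_d)` of elements of `R` that do not have the following property:
`a ≠ 0`, the polynomial `f = c₀ + … + c_d T^d` is irreducible of degree `d` over `k`, and for the fields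
`E = k(θ)`, `f(θ) = 0`, there are no sections for all the curves with functions `h`, `y` such that
`N(h) = a yⁿ` as in `NoSections`. -/
def Exceptional (R : Type) [CommRing R] (k : Type) [Field k] [Algebra R k] (d D : ℕ) :
    Set (Fin (d + 2) → R) :=
  {c | ¬ (algebraMap R k (c 0) ≠ 0 ∧ (poly k c).natDegree = d ∧ Irreducible (poly k c) ∧
    ∀ (E : Type x) [Field E] [Algebra k E] [FiniteDimensional k E] (θ : E),
      Algebra.adjoin k {θ} = ⊤ → aeval θ (poly k c) = 0 →
        NoSections.{v, w, x} E D (algebraMap R k (c 0)))}

/-- Density zero: for every `ε > 0` there is an ideal `I` of `R` of finite index such that `E` lies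
in at most `ε #(R/I)ᴺ` residue classes modulo `I`. -/
def DensityZero {R : Type} [CommRing R] {N : ℕ} (E : Set (Fin N → R)) : Prop :=
  ∀ ε : ℝ, 0 < ε → ∃ I : Ideal R, Finite (R ⧸ I) ∧
    (Set.ncard ((fun (t : Fin N → R) i => Ideal.Quotient.mk I (t i)) '' E) : ℝ) ≤
      ε * (Nat.card (R ⧸ I) : ℝ) ^ N

section proof

open Pool.Agent.Q61.NF Pool.Agent.Q61.FG

lemma ordDiv {F : Type v} {Ω : Type w} [Field F] [Field Ω] [Algebra F Ω]
    {U : Set (ValuationSubring F)} {n : ℕ} {a b : Ω} (h : OrderDivisible U n (a / b)) :
    OrdDiv Ω U n a b := by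
  intro W hW
  obtain ⟨t, ht, h1, h2, h3⟩ := h W hW
  refine ⟨t, ht, h2, ?_⟩
  rwa [inv_div] at h3

lemma of_noSec {K : Type} {E : Type x} [Field K] [Field E] [Algebra K E] [FiniteDimensional K E]
    {D : ℕ} {a : K} (h : NoSec.{0, v, w, x, 0} E D a) : NoSections.{v, w, x} E D a := by
  intro L _ _ _ hL n hn hDn F Ω _ _ _ _ _ _ _ _ _ U hU r A x y hN hdiv
  have h1 : IsEmpty (Pool.Agent.W620.SC.GSection L F Ω U) :=
    h L hL n hn hDn F Ω U hU r A x y ⟨hN.1, hN.2, fun σ τ => ordDiv (hdiv σ τ)⟩
  exact ⟨fun s => h1.false ⟨s.toHom, s.cont, s.compat⟩⟩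

end proof

/-- (1) Let `R` be a domain of characteristic zero that is finitely generated as a ring, with fraction
field `k`; so `k` is any field finitely generated over `ℚ`.  Let `D ≥ 2` and let `d ≥ 1` be a multiple of
`gcd(2, D) D`.  For all vectors `(a, c₀, …, c_d)` of elements of `R` outside a set of density zero, the
polynomial `f = c₀ + … + c_d T^d` is irreducible of degree `d` over `k`, `a ≠ 0`, and for `E = k(θ)`,
`f(θ) = 0`, all finite extensions `L/k` whose degree is not divisible by `D` (for instance `L = k`), all
`n ≥ 1` divisible by `D`, and all (smooth geometrically connected) curves `U` over `L` with functions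
`h ∈ E ⊗ L(U)`, `y ∈ L(U)` such that `N(h) = a yⁿ` and the divisors on `U` of the quotients of the conjugates
of `h` are divisible by `n`, the fundamental group of `U` has no section over `G_L`.
(2) The condition on the divisors is satisfied if the divisors on `U` of the conjugates of `h` are
disjoint; so (1) applies to the cyclic covers `a yⁿ = N(h)` of all curves over `L`, for all functions `h`
whose divisor has no point in common with those of its conjugates. -/
theorem result (R : Type) [CommRing R] [IsDomain R] [CharZero R] [Algebra.FiniteType ℤ R]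
    (k : Type) [Field k] [Algebra R k] [IsFractionRing R k] (d D : ℕ) (hd : d ≠ 0) (hD : 2 ≤ D)
    (hDd : Nat.gcd 2 D * D ∣ d) :
    DensityZero (Exceptional.{v, w, x} R k d D) ∧
    (∀ (E : Type x) [Field E] [Algebra k E] [FiniteDimensional k E] (F : Type v) (Ω : Type w)
      [Field F] [Field Ω] [Algebra F Ω] [Algebra k Ω]
      (U : Set (ValuationSubring F)) (n : ℕ) (a : k) (r : ℕ) (A : Fin r → E) (x : Fin r → F) (y : F),
      (∀ W : ValuationSubring Ω, W.comap (algebraMap F Ω) ∈ U → ∀ c : k, algebraMap k Ω c ∈ W) →
        0 < n → a ≠ 0 → HasNorm Ω n a A x y → DisjointDivisors k Ω U A x →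
          ∀ σ τ : E →ₐ[k] Ω, OrderDivisible U n (conjugate A x σ / conjugate A x τ)) := by
  have h3 : 3 ≤ d := by
    have h1 : Nat.gcd 2 D * D ≤ d := Nat.le_of_dvd (Nat.pos_of_ne_zero hd) hDd
    rcases Nat.eq_or_lt_of_le hD with h2 | h2
    · subst h2
      norm_num at h1
      omega
    · have h4 : 0 < Nat.gcd 2 D := Nat.gcd_pos_of_pos_left _ two_pos
      nlinarith
  refine ⟨?_, ?_⟩
  · intro ε hε
    obtain ⟨I, hI, hle⟩ := Pool.Agent.Q61.FG.density_cov.{v, w, x} (R := R) (k := k) d D h3
      (by omega) hDd ε hε
    refine ⟨I, hI, le_trans ?_ hle⟩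
    have hsub : (Exceptional.{v, w, x} R k d D : Set (Fin (d + 2) → R)) ⊆
        {c : Fin (d + 2) → R | ¬ Pool.Agent.Q61.FG.GoodC.{v, w, x} k D c} := by
      intro c hc hgood
      obtain ⟨h1, h2, h3, h4⟩ := hgood
      apply hc
      refine ⟨h1, Pool.Agent.TH377.Sup.pol_natDegree _ h2, h3, ?_⟩
      intro E _ _ _ θ hθ hroot
      exact of_noSec (h4 E θ hθ hroot)
    exact_mod_cast Set.ncard_le_ncard (Set.image_mono hsub) (Set.toFinite _)
  · intro E _ _ _ F Ω _ _ _ _ U n a r A x y hUK hn ha hN hdis σ τ W hW
    obtain ⟨t, ht, h1, h2⟩ := Pool.Agent.Q61.NF.ordDiv_of_disjoint U n hn a ha A x y hUK hN.1 hN.2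
      (fun W hW σ τ hst => hdis W hW σ τ hst) σ τ W hW
    refine ⟨t, ht, ?_, h1, ?_⟩
    · exact div_ne_zero (div_ne_zero (hN.1 σ) (hN.1 τ))
        (pow_ne_zero _ ((_root_.map_ne_zero _).2 ht))
    · rw [inv_div]
      exact h2

end Pool.Agent.Results.MP_e66f84_ag.AllCoversAlmostAllNorms
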