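import Pool.Agent.Q61.NF.Ext
import Pool.Agent.TH377.LocG.Res
import Pool.Agent.W623.SecF.Kt
/-!
# MP_e66f84_ag: cyclic covers `a yⁿ = N_{E/k}(h)` of arbitrary curves over finitely generated fields

Let `k` be a field of characteristic zero with a discrete valuation ring `A` whose residue field `κ` is
arbitrary, for instance, if `k` is finitely generated over `ℚ`, the local ring of a divisor on a scheme
of finite type over `ℤ` with function field `k`, or if `k = K(t)` the local ring of a `K`-rational point
of the line.  Let `E/k` be an extension which is unramified over `A`: `E = k(θ)`, where `θ` is a root of a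
monic polynomial `g ∈ A[T]`, irreducible over `k`, with a separable reduction over `κ`.  Let `D ≥ 1` be such
that the degrees of all irreducible factors of the reduction of `g` are divisible by `gcd(2, D) D`, and let
`m` be the valuation of `a ∈ k`.

Let `Y` be ANY smooth geometrically connected curve over `k`, of any genus, and `h` a rational function on
`Y_E` whose divisor has no point in common with the divisors of its conjugates.  If `D` does not divide `m`,
then for all `n` divisible by `D` the fundamental groups of the cyclic cover

  `a yⁿ = N_{E/k}(h)`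

of `Y`, of its open subcurves, and of all smooth curves that dominate it have no section over `G_k`; nor is
there one over `G_L` for the finite extensions `L/k` such that `D` does not divide `m [L : k]`, where `Y` and
`h` may be defined over `L` and `L ⊗ E`.  So the section conjecture holds for these curves.  More generally
we consider all curves `X` over `L` with functions `h ∈ E ⊗ L(X)` and `y ∈ L(X)` such that `N(h) = a yⁿ` and
the divisors of the quotients of the conjugates of `h` are divisible by `n`.

For `k = K(t)`, `K` any field finitely generated over `ℚ` (or any field of characteristic zero), the place may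
be `t = 0`, with the infinite residue field `K`; then `g ∈ K[t][T]`, and `m` is the order of `a` at `t = 0`.
For example, if `E₀/K` is any extension of odd prime degree `ℓ` then no cyclic cover
`t y^ℓ = N_{E₀(t)/K(t)}(h)` of a curve over `K(t)` has a section over `K(t)`, nor over an extension of a
degree prime to `ℓ`.  The curves are not supposed to have good reduction at the place.

In the starting files this is proved for superelliptic curves and for plane curves given by norms of linear
forms (`NormCurvesAnyField`); here the base of the cover is an arbitrary curve.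

The fundamental group is described through valuations.  Let `U` be a smooth geometrically connected
curve over `k` with function field `F`, let `Ω` be an algebraic closure of `F`, and let `F_U` be the
maximal extension of `F` inside `Ω` which is unramified over the closed points of `U`, that is, over
their local rings, which are valuation rings of `F`.  Then `π₁(U) = Gal(F_U/F)`, and the map
`π₁(U) → G_k` is the restriction of automorphisms to the algebraic closure of `k` in `Ω`.

Proof.  The Kummer argument for conjugate functions is in the starting library (`Pool.Agent.TH377.NC`):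
for a section the quotients of the conjugates of `h`, which are `ℓ`-th powers in `F_U` for the powers
`ℓ | D` of primes, are `ℓ`-th powers of functions fixed by the section, up to constants of an unramified
extension of the base field; the sum of the valuations of these constants over a class of conjugate roots of
the reduction of `g` is `0` modulo `ℓ`, but it is the valuation of `a`.
-/

set_option autoImplicit false
set_option maxHeartbeats 400000

namespace Pool.Agent.Results.MP_e66f84_ag.CyclicCoversAnyField

universe u v w x y z

section definitions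

variable (k : Type u) (F : Type v) (Ω : Type w) [Field k] [Field F] [Field Ω] [Algebra k F]
  [Algebra F Ω] [Algebra k Ω]

/-- The inertia group of the valuation ring `W` of `Ω`, as a subgroup of `Gal(Ω/F)`: the
automorphisms of `Ω` over `F` that map `W` onto itself and act as the identity on its residue
field. -/
noncomputable def inertia (W : ValuationSubring Ω) : Subgroup (Ω ≃ₐ[F] Ω) :=
  (W.inertiaSubgroup F).map (W.decompositionSubgroup F).subtype

/-- `F_U`, for a set `U` of valuation rings of `F`: the elements of `Ω` fixed by the inertia groups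
of all valuation rings `W` of `Ω` with `W ∩ F ∈ U`.  If `Ω` is an algebraic closure of a field `F`
of characteristic zero, this is the maximal extension of `F` in `Ω` unramified over `U`. -/
noncomputable def unramified (U : Set (ValuationSubring F)) : IntermediateField F Ω :=
  ⨅ W : {W : ValuationSubring Ω // W.comap (algebraMap F Ω) ∈ U},
    IntermediateField.fixedField (inertia F Ω W.1)

/-- The map `τ : M → M` acts as `σ : K → K` on the elements that the fields `K` and `M` have in
common when they are regarded as subfields of `Ω` through `i` and `j`. -/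
def ActsAs {K M Ω : Type*} [Field K] [Field M] [Field Ω] (i : K →+* Ω) (j : M →+* Ω) (σ : K → K)
    (τ : M → M) : Prop :=
  ∀ c z, j z = i c → j (τ z) = i (σ c)

/-- Let `k ⊆ K ⊆ Ω` and `F ⊆ M ⊆ Ω` be fields.  A splitting of `Gal(M/F) → Gal(K/k)`: a continuous
homomorphism `s` from `Gal(K/k)` to `Gal(M/F)` such that `s(σ)` acts as `σ` on the elements of
`K ∩ M`. -/
structure Splitting (K M : Type*) [Field K] [Field M] [Algebra k K] [Algebra F M] [Algebra K Ω]
    [Algebra M Ω] where
  /-- the homomorphism `Gal(K/k) → Gal(M/F)` -/
  toHom : (K ≃ₐ[k] K) →* (M ≃ₐ[F] M)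
  cont : Continuous toHom
  compat : ∀ σ : K ≃ₐ[k] K, ActsAs (algebraMap K Ω) (algebraMap M Ω) σ (toHom σ)

/-- The sections of `π₁(U) = Gal(F_U/F) → G_k`: the continuous homomorphisms `s` from
`G_k = Gal(k̄/k)` to `Gal(F_U/F)`, where `k̄` is the algebraic closure of `k` in `Ω`, such that
`s(σ)` acts as `σ` on the elements of `k̄`. -/
def GaloisSection (U : Set (ValuationSubring F)) : Type w :=
  Splitting k F Ω (algebraicClosure k Ω) (unramified F Ω U)

end definitions

section functions

variable {K : Type u} {E : Type x} {F : Type v} {Ω : Type w} [Field K] [Field E] [Algebra K E]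
  [FiniteDimensional K E] [Field F] [Field Ω] [Algebra F Ω] [Algebra K Ω]

/-- The conjugate `σ(h) = ∑ σ(A_j) x_j` of the function `h = ∑ A_j x_j`, `A_j ∈ E`, `x_j ∈ F`, for an
embedding `σ` of `E` into the algebraically closed field `Ω ⊇ F`. -/
noncomputable def conjugate {r : ℕ} (A : Fin r → E) (x : Fin r → F) (σ : E →ₐ[K] Ω) : Ω :=
  ∑ j, σ (A j) * algebraMap F Ω (x j)

/-- The element `z` is a unit of the valuation ring `W`: it has neither a zero nor a pole at the point
`W`. -/
def UnitAt (W : ValuationSubring Ω) (z : Ω) : Prop := z ≠ 0 ∧ z ∈ W ∧ z⁻¹ ∈ W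

/-- The order of `z` is divisible by `n` at all points over the set `U` of valuation rings of `F`: it is
the order of the `n`-th power of an element of `F`. -/
def OrderDivisible (U : Set (ValuationSubring F)) (n : ℕ) (z : Ω) : Prop :=
  ∀ W : ValuationSubring Ω, W.comap (algebraMap F Ω) ∈ U →
    ∃ t : F, t ≠ 0 ∧ UnitAt W (z / algebraMap F Ω t ^ n)

/-- The function `h = ∑ A_j x_j` is not zero and its norm, the product of its conjugates, is `a yⁿ`. -/
def HasNorm (Ω : Type w) [Field Ω] [Algebra F Ω] [Algebra K Ω] (n : ℕ) (a : K) {r : ℕ}
    (A : Fin r → E) (x : Fin r → F) (y : F) : Prop :=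
  (∀ σ : E →ₐ[K] Ω, conjugate A x σ ≠ 0) ∧
    ∏ σ : E →ₐ[K] Ω, conjugate A x σ = algebraMap K Ω a * algebraMap F Ω y ^ n

end functions

/-- The divisors of the conjugates of `h = ∑ A_j x_j` are disjoint on `U`: there is no point over `U` at which
two different conjugates of `h` have zeros or poles. -/
def DisjointDivisors (K : Type u) {E : Type x} {F : Type v} (Ω : Type w) [Field K] [Field E]
    [Algebra K E] [Field F] [Field Ω] [Algebra F Ω] [Algebra K Ω] (U : Set (ValuationSubring F))
    {r : ℕ} (A : Fin r → E) (x : Fin r → F) : Prop :=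
  ∀ W : ValuationSubring Ω, W.comap (algebraMap F Ω) ∈ U → ∀ σ τ : E →ₐ[K] Ω, σ ≠ τ →
    UnitAt W (conjugate A x σ) ∨ UnitAt W (conjugate A x τ)

/-- The degrees of all irreducible factors of `P` are divisible by `N`. -/
def FactorsDivisible {κ : Type z} [Field κ] (N : ℕ) (P : Polynomial κ) : Prop :=
  ∀ h : Polynomial κ, Irreducible h → h ∣ P → N ∣ h.natDegree

/-- `θ` generates `E` over `k` and is a root of the irreducible polynomial `G`. -/
def GeneratedByRoot {k : Type u} {E : Type x} [Field k] [Field E] [Algebra k E]
    (G : Polynomial k) (θ : E) : Prop :=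
  Irreducible G ∧ Algebra.adjoin k {θ} = ⊤ ∧ Polynomial.aeval θ G = 0

/-- The valuation of `a` at the discrete valuation ring `A` is `m`: `a` is the product of a unit and of
the power with the exponent `m` of a uniformiser. -/
def HasValue {k : Type u} [Field k] (A : ValuationSubring k) (m : ℤ) (a : k) : Prop :=
  ∃ ϖ t : A, Irreducible ϖ ∧ IsUnit t ∧ a = (t : k) * (ϖ : k) ^ m

/-- `a = t^m p(t)/q(t)` with `p(0), q(0) ≠ 0`: a rational function in `t` of order `m` at the point
`t = 0`. -/
def HasOrder (K : Type z) {k : Type u} [Field K] [Field k] [Algebra K k] (t : k) (m : ℤ)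
    (a : k) : Prop :=
  ∃ p q : Polynomial K, p.eval 0 ≠ 0 ∧ q.eval 0 ≠ 0 ∧
    a = t ^ m * (Polynomial.aeval t p / Polynomial.aeval t q)

/-- The assertion for the extension `E/K` and the numbers `D`, `a` and `m`: for all finite extensions `L` of
`K` such that `D` does not divide `m [L : K]`, all `n ≥ 1` divisible by `D`, all fields `F` over `L`
(function fields of curves or varieties `X` over `L`) with algebraic closure `Ω`, and all sets `U` of
valuation rings of `F` over `L` (points of `X`): if there are functions `h = ∑ A_j x_j` and `y` with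
`N(h) = a yⁿ` such that the orders of all quotients `σ(h)/τ(h)` at the points of `U` are divisible by `n`,
then `π₁(U) → G_L` has no section. -/
def NoSections {K : Type u} (E : Type x) [Field K] [Field E] [Algebra K E] [FiniteDimensional K E]
    (D : ℕ) (a : K) (m : ℤ) : Prop :=
  ∀ (L : Type y) [Field L] [Algebra K L] [FiniteDimensional K L],
    ¬ (D : ℤ) ∣ m * Module.finrank K L → ∀ n : ℕ, 0 < n → D ∣ n →
      ∀ (F : Type v) (Ω : Type w) [Field F] [Field Ω] [Algebra L F] [Algebra F Ω] [Algebra L Ω]
        [Algebra K Ω] [IsScalarTower L F Ω] [IsScalarTower K L Ω] [IsAlgClosure F Ω]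
        (U : Set (ValuationSubring F)), (∀ O ∈ U, ∀ c : L, algebraMap L F c ∈ O) →
        ∀ (r : ℕ) (A : Fin r → E) (x : Fin r → F) (y : F), HasNorm Ω n a A x y →
          (∀ σ τ : E →ₐ[K] Ω, OrderDivisible U n (conjugate A x σ / conjugate A x τ)) →
            IsEmpty (GaloisSection L F Ω U)

/-- (1) `A` is a discrete valuation ring of `k` whose residue field `κ` is arbitrary, `g ∈ A[T]` is monic
with a separable reduction whose irreducible factors have degrees divisible by `gcd(2, D) D`, `E = k(θ)`
is generated by a root of `g`, and `m` is the valuation of `a`. -/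
def LocalStatement : Prop :=
  ∀ (k : Type u) [Field k] [CharZero k] (A : ValuationSubring k) [IsDiscreteValuationRing A]
    (κ : Type z) [Field κ] (ρ : A →+* κ), Function.Surjective ρ → ∀ g : Polynomial A, g.Monic →
    (g.map ρ).Separable → ∀ (E : Type x) [Field E] [Algebra k E] [FiniteDimensional k E] (θ : E),
    GeneratedByRoot (g.map (algebraMap A k)) θ → ∀ D : ℕ, D ≠ 0 →
    FactorsDivisible (Nat.gcd 2 D * D) (g.map ρ) → ∀ (a : k) (m : ℤ), HasValue A m a →
    NoSections.{u, v, w, x, y} E D a m

/-- (2) `k = K(t)` is a rational function field, `K` any field of characteristic zero, `g ∈ K[t][T]` is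
monic, `g(0, T)` is separable and its irreducible factors over `K` have degrees divisible by
`gcd(2, D) D`, `E = k(θ)` is generated by a root of `g`, and `m` is the order of `a` at `t = 0`. -/
def FunctionFieldStatement : Prop :=
  ∀ (K : Type z) [Field K] [CharZero K] (k : Type u) [Field k] [Algebra K k] (t : k),
    Transcendental K t → IntermediateField.adjoin K {t} = (⊤ : IntermediateField K k) →
    ∀ g : Polynomial (Polynomial K), g.Monic → (g.map (Polynomial.evalRingHom 0)).Separable →
    ∀ (E : Type x) [Field E] [Algebra k E] [FiniteDimensional k E] (θ : E),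
    GeneratedByRoot (g.map (Polynomial.aeval t : Polynomial K →ₐ[K] k).toRingHom) θ →
    ∀ D : ℕ, D ≠ 0 → FactorsDivisible (Nat.gcd 2 D * D) (g.map (Polynomial.evalRingHom 0)) →
    ∀ (a : k) (m : ℤ), HasOrder K t m a → NoSections.{u, v, w, x, y} E D a m

/-- (3) If the divisors of the conjugates of `h` are disjoint on `U` and `N(h) = a yⁿ`, then the orders of
the quotients of the conjugates of `h` at the points of `U` are divisible by `n`. -/
def DisjointStatement : Prop :=
  ∀ (k : Type u) [Field k] (E : Type x) [Field E] [Algebra k E] [FiniteDimensional k E]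
    (F : Type v) (Ω : Type w) [Field F] [Field Ω] [Algebra F Ω] [Algebra k Ω]
    (U : Set (ValuationSubring F)) (n : ℕ) (a : k) (r : ℕ) (A : Fin r → E) (x : Fin r → F) (y : F),
    (∀ W : ValuationSubring Ω, W.comap (algebraMap F Ω) ∈ U → ∀ c : k, algebraMap k Ω c ∈ W) →
      0 < n → a ≠ 0 → HasNorm Ω n a A x y → DisjointDivisors k Ω U A x →
        ∀ σ τ : E →ₐ[k] Ω, OrderDivisible U n (conjugate A x σ / conjugate A x τ)

section proof

open Pool.Agent.TH377.NC Polynomial Pool.Agent.Q61.NF

lemma toSec {k : Type u} {F : Type v} {Ω : Type w} [Field k] [Field F] [Field Ω] [Algebra k F]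
    [Algebra F Ω] [Algebra k Ω] (U : Set (ValuationSubring F))
    (h : IsEmpty (Pool.Agent.W620.SC.GSection k F Ω U)) : IsEmpty (GaloisSection k F Ω U) :=
  ⟨fun s => h.false ⟨s.toHom, s.cont, s.compat⟩⟩

lemma ordDiv {F : Type v} {Ω : Type w} [Field F] [Field Ω] [Algebra F Ω]
    {U : Set (ValuationSubring F)} {n : ℕ} {a b : Ω} (h : OrderDivisible U n (a / b)) :
    OrdDiv Ω U n a b := by
  intro W hW
  obtain ⟨t, ht, h1, h2, h3⟩ := h W hW
  refine ⟨t, ht, h2, ?_⟩
  rwa [inv_div] at h3

/-- a power basis given by a root -/
theorem pb_of_root {k : Type u} [Field k] {E : Type x} [Field E] [Algebra k E]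
    [FiniteDimensional k E] (θ : E) (G : k[X]) (hG : G.Monic) (h : GeneratedByRoot G θ) :
    ∃ pb : PowerBasis k E, G = minpoly k pb.gen ∧ G.natDegree = Module.finrank k E := by
  obtain ⟨h1, h2, h3⟩ := h
  have hint : IsIntegral k θ := Algebra.IsIntegral.isIntegral θ
  have h4 := minpoly.eq_of_irreducible_of_monic h1 h3 hG
  refine ⟨PowerBasis.ofAdjoinEqTop hint h2, ?_, ?_⟩
  · rw [PowerBasis.ofAdjoinEqTop_gen, ← h4]
  · rw [(PowerBasis.ofAdjoinEqTop hint h2).finrank, PowerBasis.ofAdjoinEqTop_dim, ← h4]

/-- (1), the local statement -/
theorem local_statement : LocalStatement.{u, v, w, x, y, z} := by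
  intro k _ _ A _ κ _ ρ hρ g hg hs E _ _ _ θ hθ D hD hσ a m ⟨ϖ0, t0, hϖ0, ht0, hat0⟩ L _ _ _ hL n hn0
    hDn F Ω _ _ _ _ _ _ _ _ _ U hU r A' x y hN hdiv
  obtain ⟨pb, hpb, hfin⟩ := pb_of_root θ _ (hg.map _) hθ
  have hst : IsScalarTower A k L := inferInstance
  obtain ⟨ℓ, hℓ0, hℓD, B, _, _, _, _, hfr, f, hf, hfK, hfs, hfd, ϖ, t, m', hϖ, ht, hm', hat⟩ :=
    dvr_data (R := A) (k := k) (L := L) g hg
      (Pool.Agent.TH377.LocG.separable_residue ρ hρ g hs) D hD
      (Pool.Agent.TH377.LocG.factorDiv_residue ρ hρ _ g hσ) ϖ0 t0 hϖ0 ht0 m hL
  have hfL : f.map (algebraMap B L) = (minpoly k pb.gen).map (algebraMap k L) := by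
    rw [hfK, ← hpb, Polynomial.map_map, ← IsScalarTower.algebraMap_eq A k L]
  have hat' : a = algebraMap A k t0 * algebraMap A k ϖ0 ^ m := hat0
  have haL : algebraMap k L a = algebraMap B L t * algebraMap B L ϖ ^ m' := by
    rw [← hat, hat', map_mul, map_zpow₀, ← IsScalarTower.algebraMap_apply A k L,
      ← IsScalarTower.algebraMap_apply A k L]
  exact toSec U (of_data pb ℓ hℓ0 f hf hfL hfs hfd ϖ t m' hϖ ht hm' _ haL F Ω U hU n
    (hℓD.trans hDn) A' x y ⟨hN.1, hN.2, fun σ τ => ordDiv (hdiv σ τ)⟩)

/-- (2), rational function fields -/
theorem function_field_statement : FunctionFieldStatement.{u, v, w, x, y, z} := by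
  intro K _ _ k _ _ t ht htop g hg hs E _ _ _ θ hθ D hD hσ a m ⟨p, q, hp, hq, ha⟩
  have hcz : CharZero k := charZero_of_injective_algebraMap (algebraMap K k).injective
  obtain ⟨A, hA, ρ, j, hρ, hρi, hi, hX, hunit⟩ := Pool.Agent.W623.SecF.exists_dvr t ht htop
  have e1 : ρ.comp j = evalRingHom 0 := RingHom.ext fun c => hρi c
  have e2 : (algebraMap A k).comp j = (aeval t : K[X] →ₐ[K] k).toRingHom :=
    RingHom.ext fun c => hi c
  have e3 : (g.map j).map ρ = g.map (evalRingHom 0) := by
    rw [Polynomial.map_map, e1]
  have e4 : (g.map j).map (algebraMap A k) = g.map (aeval t : K[X] →ₐ[K] k).toRingHom := by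
    rw [Polynomial.map_map, e2]
  obtain ⟨v, hv⟩ := hunit q hq
  have ha' : HasValue A m a := by
    refine ⟨j X, j p * ((v⁻¹ : Aˣ) : A), hX, (hunit p hp).mul (Units.isUnit _), ?_⟩
    have h1 : ((j X : A) : k) = t := by rw [hi, aeval_X]
    have h2 : (((v⁻¹ : Aˣ) : A) : k) = (aeval t q)⁻¹ := by
      have h3 : ((v : A) : k) * (((v⁻¹ : Aˣ) : A) : k) = 1 := by
        have h4 := v.mul_inv
        exact_mod_cast congrArg (fun z : A => (z : k)) h4
      rw [hv, hi] at h3
      exact eq_inv_of_mul_eq_one_right h3
    have h5 : ((j p * ((v⁻¹ : Aˣ) : A) : A) : k) = aeval t p / aeval t q := by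
      change ((j p : A) : k) * (((v⁻¹ : Aˣ) : A) : k) = _
      rw [hi, h2, div_eq_mul_inv]
    rw [h5, h1, ha, mul_comm]
  have h6 := local_statement.{u, v, w, x, y, z} k A K ρ hρ (g.map j) (hg.map j) (by rwa [e3]) E θ
    (by rwa [e4]) D hD (by rwa [e3]) a m ha'
  exact h6

/-- (3), disjoint divisors -/
theorem disjoint_statement : DisjointStatement.{u, v, w, x} := by
  intro k _ E _ _ _ F Ω _ _ _ _ U n a r A x y hUK hn ha hN hdis σ τ W hW
  obtain ⟨t, ht, h1, h2⟩ := Pool.Agent.Q61.NF.ordDiv_of_disjoint U n hn a ha A x y hUK hN.1 hN.2
    (fun W hW σ τ hst => hdis W hW σ τ hst) σ τ W hW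
  refine ⟨t, ht, ?_, h1, ?_⟩
  · exact div_ne_zero (div_ne_zero (hN.1 σ) (hN.1 τ))
      (pow_ne_zero _ ((_root_.map_ne_zero _).2 ht))
  · rw [inv_div]
    exact h2

end proof

/-- (1) Let `k` be a field of characteristic zero and `A` a discrete valuation ring of `k` with an
arbitrary residue field.  Let `g ∈ A[T]` be monic with a separable reduction, irreducible over `k`, and
`E = k(θ)` with a root `θ` of `g`.  Let `D ≥ 1` be such that the degrees of all irreducible factors of the
reduction of `g` are divisible by `gcd(2, D) D`, and let `a ∈ k` have the valuation `m`.  Then for all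
finite extensions `L` of `k` such that `D` does not divide `m [L : k]`, all `n ≥ 1` divisible by `D`, and all
(smooth geometrically connected) curves `U` over `L` with functions `h ∈ E ⊗ L(U)`, `y ∈ L(U)` such that
`N(h) = a yⁿ` and the divisors on `U` of the quotients of the conjugates of `h` are divisible by `n`, the
fundamental group of `U` has no section over `G_L`.
(2) The same is true for `k = K(t)`, `K` any field of characteristic zero, `g ∈ K[t][T]` monic such that
`g(0, T)` is separable with irreducible factors of degrees divisible by `gcd(2, D) D`, and `a ∈ K(t)` of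
order `m` at `t = 0`.
(3) The condition on the divisors is satisfied if the divisors on `U` of the conjugates of `h` are
disjoint; so (1) and (2) apply to the cyclic covers `a yⁿ = N(h)` of all curves over `L`, for all functions
`h` whose divisor has no point in common with those of its conjugates. -/
theorem result : LocalStatement.{u, v, w, x, y, z} ∧ FunctionFieldStatement.{u, v, w, x, y, z} ∧
    DisjointStatement.{u, v, w, x} :=
  ⟨local_statement, function_field_statement, disjoint_statement⟩

end Pool.Agent.Results.MP_e66f84_ag.CyclicCoversAnyField
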