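import Pool.Agent.Q44.Twists
import Pool.Agent.Results.MP_896029_ag.BranchPoints

/-!
# Sections of the twists by most convergents of almost every real number come from branch points modulo 2

Let `N ≥ 6` be even and let `e_1, …, e_N` be different integers which satisfy the condition `CrossRatio`, for instance
`0, 1, …, 5`. For squarefree `d` let `C_d` be the curve `d y² = ∏ (x - e_i)`, of genus `(N - 2) / 2 ≥ 2`. The statement
`SectionsAttached e d`: every section `s` of `π₁(U) → G_ℚ`, for `U` the curve `C_d` or an open subcurve, is attached modulo
2 to exactly one of the branch points `P_i = (e_i, 0)`, that is, the image of `s` in the quotient `Gal(M₂/F)` lies in the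
decomposition group of a prolongation of the valuation of `P_i`. This is the section conjecture for `C_d` modulo 2, together
with the assertion that only the branch points occur. For almost every real number `α`, all integers `(u, v) ≠ (0, 0)`, all
`ε > 0` and all large `K` it holds for `d = ± (u p + v q)`, if it is squarefree, for all convergents `p / q` of the
continued fraction of `α` with `q < 2 ^ K`, with at most `K ^ (4/5 + ε)` exceptions. The same for the linear forms in the
denominators and the numerators of the simultaneous approximations of Dirichlet's quality of almost every point of `ℝ ^ d`,
for most dyadic ranges of the denominators.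

The bound for the number of exceptional twists is from the starting file `BranchPoints`, with the definitions.
-/

set_option autoImplicit false

namespace Pool.Agent.Results.MP_e66f84_ag.MostApproximations

open Pool.Agent.Q44.CF Pool.Agent.Results.MP_896029_ag.BranchPoints

universe v w

/-- **Theorem.** Let the `N ≥ 6` branch points `e_i`, `N` even, be different integers which satisfy `CrossRatio`. Then
`SectionsAttached e d` holds for all squarefree `d = ± n`, for most of the integers `n` given by the approximations of
Dirichlet's quality of almost all real numbers and of almost all points of `ℝ ^ d`. The integers `0, …, 5` satisfy the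
condition. -/
theorem result :
    (∀ (K : Type) [Fintype K] (e : K → ℤ), Function.Injective e → Even (Fintype.card K) →
      6 ≤ Fintype.card K → CrossRatio e →
        AtMostApproximations (1 / 5) (fun n => ∀ d : ℤ, d.natAbs = n →
          ¬ (Squarefree d ∧ ¬ SectionsAttached.{0, v, w} (fun k => (e k : ℚ)) (d : ℚ)))) ∧
    CrossRatio (fun i : Fin 6 => (i : ℤ)) := by
  refine ⟨?_, Pool.Agent.Results.MP_896029_ag.BranchPoints.result.{v, w}.2⟩
  intro K _ e he hev hK hCR
  obtain ⟨C, hC⟩ := Pool.Agent.Results.MP_896029_ag.BranchPoints.result.{v, w}.1 K e he hev hK hCR
  exact atMost_twists (by norm_num) (by norm_num) hC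

end Pool.Agent.Results.MP_e66f84_ag.MostApproximations
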